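import Pool.Agent.Helper32.BanachMain

/-!
# `Simple(P)` is not Borel, for every separable quotient generator `P` for Banach algebras

The definitions used in the statement are in `Pool.Agent.Helper32.BanachDefs` (closed ideals, the
Wijsman topology, quotient algebras, simplicity, quotient generators, a characterisation of the
convolution algebra of the free semigroup).

Idea of the proof. Let `N` be the set of finite sequences of natural numbers. For `T ⊆ N` we equip
the algebra of finitely supported `N × N` matrices `z` with the norm
`∑ |z i j| * max (w i) (w j) + ‖∑_σ (z σ σ) u_T σ‖`, where `w σ = 2 ^ (|σ| + 1)` and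
`u_T σ = (w σ ^ 2 / 2) v_σ` if all initial segments of `σ` are in `T` (and `0` otherwise),
`v_σ = ∑_{ρ ⊆ σ} 2 ^ (- |ρ| - 1) δ_ρ` in `ℓ¹(N)`. The second term is bounded on products by the
first one although it is not bounded by the first one. The completion is simple if and only if the
matrix coefficients separate its points, which happens if and only if `T` contains no infinite
branch. Everything depends continuously on `T`, and the set of all `T` with an infinite branch is
not Borel.
-/

set_option autoImplicit false

namespace Pool.Agent.Results.MP_2e14e4_lc.SimpleNotBorel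

open Pool.Agent.Helper32.Banach

/-- The Banach algebra `ℓ¹(S)`, `S` the free semigroup on countably many generators, is a separable
quotient generator; and for every separable Banach algebra `P` which is a quotient generator the set
`Simple(P)` of closed two-sided ideals with simple quotient is not Borel, in particular not
`Π⁰₂ = Gδ`, in the Wijsman topology, whether or not the point `K = P` is included. -/
theorem result.{u, v} :
    (∃ (P : Type) (_ : NonUnitalNormedRing P) (_ : NormedSpace ℂ P) (_ : IsBanachAlgebra P),
      TopologicalSpace.SeparableSpace P ∧ IsEllOneFreeSemigroup P ∧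
        IsQuotientGenerator.{0, v} P) ∧
    ∀ (P : Type u) [NonUnitalNormedRing P] [NormedSpace ℂ P] [IsBanachAlgebra P]
      [TopologicalSpace.SeparableSpace P], IsQuotientGenerator.{u, 0} P →
        (¬ @MeasurableSet (ClosedIdeal P) (borel (ClosedIdeal P)) (SimpleIdeals P) ∧
          ¬ IsGδ (SimpleIdeals P)) ∧
        (¬ @MeasurableSet (ClosedIdeal P) (borel (ClosedIdeal P))
            (SimpleIdeals P \ {K | K.carrier = ⊤}) ∧
          ¬ IsGδ (SimpleIdeals P \ {K | K.carrier = ⊤})) := by
  refine ⟨⟨L1S (FreeSemigroup ℕ), inferInstance, inferInstance, inferInstance,
    separable_L1S_nat, isEllOne_L1S, isQuotientGenerator_L1S⟩, ?_⟩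
  intro P _ _ _ _ hP
  have h1 := not_borel_simple P hP
  have h2 := not_borel_simple' P hP
  exact ⟨⟨h1, not_isGδ_of_not_borel _ h1⟩, ⟨h2, not_isGδ_of_not_borel _ h2⟩⟩

end Pool.Agent.Results.MP_2e14e4_lc.SimpleNotBorel
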